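import Pool.Agent.P.MP_d483fb_an.Z.Grp.Defs
import Pool.Agent.P.MP_d483fb_an.Z.Lie.Defs
import Pool.Agent.P.MP_d483fb_an.Z.LSB.LeafDefs

/-!
Leaf structures: a measurable equivalence relation whose classes carry charts with values in a
graded matrix group, normalised by a flow (`Pre`, `LS`), leafwise measures (`Leafwise`), and the
leaf structure of an extension of a homogeneous space (`GeoLS`).
-/

open scoped Matrix Matrix.Norms.Operator InnerProductSpace RealInnerProductSpace Topology ENNReal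
open MeasureTheory ProbabilityTheory NormedSpace Filter Set

noncomputable section

namespace Pool.Agent.P.MP_d483fb_an.Z

/-- The algebraic part of a leaf structure. `T x y` is the change from the chart at `y` to the
chart at `x`, and `L s x` is the action of the flow in the charts. -/
structure Pre (X : Type) [MeasurableSpace X] (μ : Measure X) (ι : Type) [Fintype ι]
    [DecidableEq ι] where
  w : Wt ι
  f : ℝ × ℝ → X → X
  f_zero : ∀ x, f 0 x = x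
  f_add : ∀ s t x, f (s + t) x = f s (f t x)
  mp : ∀ s, MeasurePreserving (f s) μ μ
  erg : Ergodic (f (1, 0)) μ
  X0 : Set X
  meas0 : MeasurableSet X0
  ae0 : ∀ᵐ x ∂μ, x ∈ X0
  inv0 : ∀ s, ∀ x ∈ X0, f s x ∈ X0
  R : X → X → Prop
  measR : MeasurableSet {p : X × X | R p.1 p.2}
  R_mem : ∀ x y, R x y → x ∈ X0
  R_refl : ∀ x ∈ X0, R x x
  R_symm : ∀ x y, R x y → R y x
  R_trans : ∀ x y z, R x y → R y z → R x z
  R_f : ∀ s x y, R x y → R (f s x) (f s y)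
  T : X → X → Matrix ι ι ℝ
  measT : Measurable fun p : X × X => T p.1 p.2
  T_self : ∀ x ∈ X0, T x x = 1
  T_mul : ∀ x y z, R x y → R y z → T x y * T y z = T x z
  T_tri : ∀ x y, R x y → w.Tri (T x y)
  T_inj : ∀ x y, R x y → w.Lev (T x y) → x = y
  L : ℝ × ℝ → X → Matrix ι ι ℝ
  measL : ∀ s, Measurable (L s)
  L_zero : ∀ x ∈ X0, L 0 x = 1
  L_add : ∀ s t, ∀ x ∈ X0, L (s + t) x = L s (f t x) * L t x
  L_lev : ∀ s, ∀ x ∈ X0, w.Lev (L s x)
  T_f : ∀ s x y, R x y → T (f s x) (f s y) = L s x * T x y * (L s y)⁻¹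

namespace Pre

variable {X : Type} [MeasurableSpace X] {μ : Measure X} {ι : Type} [Fintype ι] [DecidableEq ι]
  (S : Pre X μ ι)

/-- The powers of the expanding transformation. -/
def a (i : ℤ) : X → X := S.f ((i : ℝ), 0)

/-- The expanding transformation as a measurable equivalence. -/
def aE : X ≃ᵐ X where
  toFun := S.f (1, 0)
  invFun := S.f (-1, 0)
  left_inv x := by
    rw [← S.f_add]
    convert S.f_zero x using 2
    simp
  right_inv x := by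
    rw [← S.f_add]
    convert S.f_zero x using 2
    simp
  measurable_toFun := (S.mp _).measurable
  measurable_invFun := (S.mp _).measurable

/-- The powers of the expanding transformation in the charts. -/
def La (i : ℤ) : X → Matrix ι ι ℝ := S.L ((i : ℝ), 0)

/-- The position of `y` in the chart at `x`. -/
def n (x y : X) : Matrix ι ι ℝ := S.w.nil (S.T x y)

/-- The block diagonal part of the change of charts. -/
def l (x y : X) : Matrix ι ι ℝ := S.w.lev (S.T x y)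

/-- The gauge of the position of `y` in the chart at `x`. -/
def N (x y : X) : ℝ := S.w.N (S.n x y)

/-- The subrelation with slopes in `J`. -/
def RJ (J : Set ℝ) (x y : X) : Prop := S.R x y ∧ S.w.Nil J (S.n x y)

/-- `q` is a slowly varying bound for the difference between the flow and the dilations. -/
structure Temp (ε : ℝ) (q : X → ℝ) : Prop where
  meas : Measurable q
  one_le : ∀ x, 1 ≤ q x
  slow : ∀ x ∈ S.X0, ∀ i : ℤ, q (S.a i x) ≤ q x * Real.exp (ε * |(i : ℝ)|)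
  slowC : ∃ C, ∀ x ∈ S.X0, ∀ s, q (S.f s x) ≤ C * q x * Real.exp (ε * ‖s‖)
  grow : ∀ x ∈ S.X0, ∀ s, ‖S.L s x * S.w.dil (-s.1) (-s.2)‖ ≤ q x * Real.exp (ε * ‖s‖) ∧
    ‖S.w.dil s.1 s.2 * (S.L s x)⁻¹‖ ≤ q x * Real.exp (ε * ‖s‖)

/-- `q` bounds the changes of charts between close points of a leaf. -/
def Bd (q : X → ℝ) : Prop :=
  ∀ x y, S.R x y → S.N x y ≤ 1 → ‖S.T x y‖ ≤ q x * q y ∧ ‖S.T y x‖ ≤ q x * q y

/-- Flow boxes: on a set of positive measure the plaques are the fibres of a measurable label. -/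
def Box (q : X → ℝ) : Prop :=
  ∀ q0 : ℝ, μ {x | q x ≤ q0} ≠ 0 → ∀ r1 : ℝ, 0 < r1 → ∀ r2 : ℝ,
    ∃ (K0 : Set X) (lab : X → ℕ → ℝ), MeasurableSet K0 ∧ μ K0 ≠ 0 ∧ Measurable lab ∧
      (∀ y ∈ K0, y ∈ S.X0 ∧ q y ≤ q0) ∧ ∀ y ∈ K0, ∀ y' ∈ K0,
        (lab y = lab y' → S.R y y' ∧ S.N y y' ≤ r1) ∧
        (S.R y y' → S.N y y' ≤ r2 → lab y = lab y')

/-- Leafwise measures along the subrelation with slopes in `J`. -/
structure Leafwise (J : Set ℝ) where
  om : Kernel X X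
  X1 : Set X
  lw : IsLeafwise μ S.aE (S.RJ J) S.N om X1
  sub1 : X1 ⊆ S.X0

/-- The leafwise measure read in the chart at `x`. -/
def Leafwise.nu {S : Pre X μ ι} {J : Set ℝ} (o : S.Leafwise J) (x : X) :
    Measure (Matrix ι ι ℝ) := (o.om x).map (S.n x)

/-- `J` is cut in a lower part `J1` and an upper part `J2`. -/
structure Cut (J J1 J2 : Set ℝ) : Prop where
  oc : J.OrdConnected
  oc1 : J1.OrdConnected
  oc2 : J2.OrdConnected
  union : J = J1 ∪ J2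
  lt : ∀ s ∈ J1, ∀ t ∈ J2, s < t

end Pre

/-- A leaf structure with tempered bounds and flow boxes. -/
structure LS (X : Type) [MeasurableSpace X] (μ : Measure X) (ι : Type) [Fintype ι]
    [DecidableEq ι] extends Pre X μ ι where
  temp : ∀ ε : ℝ, 0 < ε → ∃ q, toPre.Temp ε q ∧ toPre.Bd q ∧ toPre.Box q

/-- The unstable leaf structure of an extension `π : X → B` of a homogeneous space: algebraic
part. The index set is the union of the indices of the group and of the fibre monomials `κ`. -/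
structure GeoPre {G : Type} [Group G] [TopologicalSpace G] {n k : ℕ} (D : Std G n k) (B : Type)
    [TopologicalSpace B] [MeasurableSpace B] [MulAction G B] (X : Type) [MetricSpace X]
    [MeasurableSpace X] [MulAction G X] (μ : Measure X) (κ : Type) [Fintype κ] [DecidableEq κ]
    extends Pre X μ (Fin n ⊕ κ) where
  Ha : Euc k
  Ph : Euc k
  om : Fin n ⊕ κ → Euc k
  om_inl : ∀ i, om (.inl i) = D.lam i
  wa_eq : ∀ i, w.wa i = ⟪om i, Ha⟫
  wb_eq : ∀ i, w.wb i = ⟪om i, Ph⟫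
  g1 : ∀ i j, w.wa i = w.wa j → om i = om j
  g2 : ∀ i j i' j', w.wa j < w.wa i → w.wa j' < w.wa i' → w.slope i j = w.slope i' j' →
    om i - om j ∈ Std.cls (om i' - om j')
  g3 : ∀ i j i' j', w.wa i - w.wa j = w.wa i' - w.wa j' → om i - om j = om i' - om j'
  e0 : κ
  k1 : Finset κ
  om_e0 : om (.inr e0) = 0
  wa_pos : ∀ m, m ≠ e0 → 0 < w.wa (.inr m)
  π : X → B
  π_cont : Continuous π
  π_smul : ∀ (g : G) x, π (g • x) = g • π x
  base : ∀ g : G, MeasurePreserving (fun b : B => g • b) (μ.map π) (μ.map π)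
  f_eq : ∀ s x, f s x = D.a (s.1 • Ha + s.2 • Ph) • x
  Gen : Submonoid (Matrix (Fin n ⊕ κ) (Fin n ⊕ κ) ℝ)
  Gen_unit : ∀ T ∈ Gen, IsUnit T.det
  Gen_inv : ∀ T ∈ Gen, T⁻¹ ∈ Gen
  Gen_cl : ∀ T, IsUnit T.det → T ∈ closure (Gen : Set (Matrix (Fin n ⊕ κ) (Fin n ⊕ κ) ℝ)) → T ∈ Gen
  Gen_blk : ∀ T ∈ Gen, T.toBlocks₁₂ = 0 ∧ T.toBlocks₂₁ = 0 ∧ T.toBlocks₁₁ ∈ range D.ρ
  Gen_e0 : ∀ T ∈ Gen, T (.inr e0) (.inr e0) = 1
  Gen_lie : ∀ V : Matrix (Fin n ⊕ κ) (Fin n ⊕ κ) ℝ,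
    (∀ t : ℝ, exp (t • V) ∈ Gen ∧ w.Nil univ (exp (t • V))) → ∀ m ∉ k1, V (.inr m) (.inr e0) = 0
  dil_mem : ∀ s t, w.dil s t ∈ Gen
  T_mem : ∀ x y, R x y → T x y ∈ Gen
  L_mem : ∀ s, ∀ x ∈ X0, L s x ∈ Gen
  L_blk : ∀ s, ∀ x ∈ X0, (L s x).toBlocks₁₁ = D.ρ (D.a (s.1 • Ha + s.2 • Ph))
  P0 : ∀ x y, R x y → ∃ Y ∈ D.np Ha, (T x y).toBlocks₁₁ = exp (-Y) ∧ π y = D.ex Y • π x
  P1 : ∀ x y y', R x y → R x y' → (∀ m, T x y (.inr m) (.inr e0) = T x y' (.inr m) (.inr e0)) →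
    ∀ Y ∈ D.np Ha, (T x y').toBlocks₁₁ = (T x y).toBlocks₁₁ * exp Y → y' = D.ex (-Y) • y
  free : ∀ x ∈ X0, ∀ Y ∈ D.np Ha, D.ex Y • π x = π x → Y = 0
  inj : ∀ K : Set B, IsCompact K → ∃ W ∈ 𝓝 (1 : G), ∀ b ∈ K, ∀ g ∈ W, g • b = b → g = 1
  kap : ℝ
  kap' : ℝ
  Lp : ℝ
  kap_pos : 0 < kap
  kap_lt : kap < kap'
  G2a : ∀ x ∈ X0, ∀ y ∈ X0, ∀ K : ℝ,
    (∀ i : ℕ, dist (toPre.a (-i) x) (toPre.a (-i) y) ≤ K * Real.exp (-kap * i)) → R x y
  lip : ∀ (i : ℤ) x y, dist (toPre.a i x) (toPre.a i y) ≤ Real.exp (Lp * |(i : ℝ)|) * dist x y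
  cover : ∀ K : Set X, IsCompact K → ∃ C : ℝ, ∀ r : ℝ, 0 < r → r ≤ 1 →
    ∃ F : Finset X, (F.card : ℝ) ≤ C * r⁻¹ ^ C ∧ K ⊆ ⋃ z ∈ F, Metric.ball z r

section

variable {G : Type} [Group G] [TopologicalSpace G] {n k : ℕ} {D : Std G n k} {B : Type}
  [TopologicalSpace B] [MeasurableSpace B] [MulAction G B] {X : Type} [MetricSpace X]
  [MeasurableSpace X] [MulAction G X] {μ : Measure X} {κ : Type} [Fintype κ] [DecidableEq κ]

/-- The metric estimates along orbits, with the tempered function `q`. -/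
structure GeoPre.Est (S : GeoPre D B X μ κ) (ε : ℝ) (q : X → ℝ) : Prop where
  G1 : ∀ r : ℝ, ∃ K : ℝ, ∀ x y, S.R x y → S.toPre.N x y ≤ r → ∀ i : ℕ,
    dist (S.toPre.a (-i) x) (S.toPre.a (-i) y) ≤ K * q x * Real.exp (-S.kap' * i)
  G2c : ∀ x ∈ S.X0, ∀ y ∈ S.X0,
    (∀ i : ℕ, dist (S.toPre.a (-i) x) (S.toPre.a (-i) y) ≤ Real.exp (-S.kap * i) / q x) →
    ‖S.T x y‖ ≤ q x * q y ∧ ‖S.T y x‖ ≤ q x * q y
  G3 : ∀ x ∈ S.X0, ∀ y, ∀ t : ℕ,
    (∀ i ≤ t, dist (S.toPre.a i x) (S.toPre.a i y) ≤ 1 / q (S.toPre.a i x)) → ∀ i ≤ t,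
      dist (S.toPre.a i x) (S.toPre.a i y) ≤
        q (S.toPre.a t x) * Real.exp (-S.kap' * (t - i)) + q x * Real.exp (ε * t) * dist x y
  G7 : ∃ C : ℝ, ∀ x ∈ S.X0, ∀ y, ∀ t : ℕ,
    (∀ i ≤ t, dist (S.toPre.a i x) (S.toPre.a i y) ≤ 1 / q (S.toPre.a i x)) →
    ∃ Y ∈ D.g, S.π y = D.ex Y • S.π x ∧
      ∀ i ≤ t, ‖D.Ad (D.a S.Ha ^ i) Y‖ ≤ C * dist (S.toPre.a i x) (S.toPre.a i y)

end

/-- The unstable leaf structure of an extension of a homogeneous space. -/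
structure GeoLS {G : Type} [Group G] [TopologicalSpace G] {n k : ℕ} (D : Std G n k) (B : Type)
    [TopologicalSpace B] [MeasurableSpace B] [MulAction G B] (X : Type) [MetricSpace X]
    [MeasurableSpace X] [MulAction G X] (μ : Measure X) (κ : Type) [Fintype κ] [DecidableEq κ]
    extends GeoPre D B X μ κ where
  geo : ∀ ε : ℝ, 0 < ε → ∃ q, toPre.Temp ε q ∧ toGeoPre.Est ε q

end Pool.Agent.P.MP_d483fb_an.Z
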