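import Pool.Agent.P.MP_d483fb_an.Z.LS.Defs
import Pool.Agent.P.MP_d483fb_an.Z.Grp.Net

/-!
Elementary properties of leaf structures: cocycle formulas, equivariance, measurability, growth of
the gauge along the flow and the bound for the block diagonal parts.
-/

open scoped Matrix Matrix.Norms.Operator Topology
open MeasureTheory Filter Set

noncomputable section

namespace Pool.Agent.P.MP_d483fb_an.Z

namespace Wt

variable {ι : Type} [Fintype ι] [DecidableEq ι] {w : Wt ι} {J : Set ℝ} {χ R : ℝ}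
  {n p e : Matrix ι ι ℝ}

variable (w) in
/-- Conjugation by a bounded element is Hoelder for the gauge. -/
theorem exists_N_conj (R : ℝ) : ∃ K, 0 ≤ K ∧ ∀ p e : Matrix ι ι ℝ, w.Nil univ p → w.Nil univ e →
    w.N p ≤ R → w.N e ≤ R → w.N (p * e * p⁻¹) ≤ K * w.N e ^ w.th := by
  obtain ⟨R', hR1, hR⟩ : ∃ R', 1 ≤ R' ∧ R ≤ R' := ⟨max 1 R, le_max_left _ _, le_max_right _ _⟩
  have hC := w.one_le_C
  obtain ⟨M0, hM0⟩ : ∃ M0, M0 = w.C * (1 + w.C * R') ^ w.C := ⟨_, rfl⟩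
  have hCR : R' ≤ w.C * R' := le_mul_of_one_le_left (by linarith) hC
  have M1 : 1 ≤ M0 := hM0 ▸
    one_le_mul_of_one_le_of_one_le hC (Real.one_le_rpow (by linarith) w.C_pos.le)
  have M3 : M0 ≤ M0 * M0 * M0 := by nlinarith [mul_nonneg (sub_nonneg.2 M1) (sub_nonneg.2 M1)]
  have hc : 0 ≤ w.gi * (M0 * M0 * M0) ^ (w.gi + 1) :=
    mul_nonneg w.gi_pos.le (Real.rpow_nonneg (by linarith) _)
  have hq : 0 ≤ M0 * M0 * (Fintype.card ι * R' ^ w.tp) := by positivity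
  refine ⟨w.gi * (M0 * M0 * M0) ^ (w.gi + 1) * (M0 * M0 * (Fintype.card ι * R' ^ w.tp)) ^ w.tp⁻¹,
    mul_nonneg hc (Real.rpow_nonneg hq _), fun p e h h' hp he => ?_⟩
  have b1 : ‖p‖ ≤ M0 := hM0 ▸ h.norm_le ((hp.trans hR).trans hCR)
  have b2 : ‖e‖ ≤ M0 := hM0 ▸ h'.norm_le ((he.trans hR).trans hCR)
  have b3 : ‖p⁻¹‖ ≤ M0 := hM0 ▸ (h.inv ordConnected_univ).norm_le
    (h.N_inv_le.trans (mul_le_mul_of_nonneg_left (hp.trans hR) w.C_pos.le))
  have b4 := h'.norm_sub_one_le hR1 (he.trans hR)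
  have b5 : ‖(1 : Matrix ι ι ℝ)‖ ≤ M0 := hM0 ▸ (Nil.one (w := w) (J := univ)).norm_le
    (by rw [N_one]; linarith)
  have h0 := w.N_nonneg e
  have tri : ∀ x : Matrix ι ι ℝ, ‖p * x * p⁻¹‖ ≤ M0 * M0 * ‖x‖ := fun x => by
    refine (norm_mul_le _ _).trans ((mul_le_mul ((norm_mul_le _ _).trans
      (mul_le_mul_of_nonneg_right b1 (norm_nonneg _))) b3 (norm_nonneg _) (by positivity)).trans
      (le_of_eq (by ring)))
  have h1 := N_holder (w := w) (M1.trans M3)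
    ((tri e).trans (mul_le_mul_of_nonneg_left b2 (by positivity))) (b5.trans M3)
  rw [N_one, sub_zero] at h1
  refine (le_abs_self _).trans (h1.trans ?_)
  rw [mul_assoc (w.gi * (M0 * M0 * M0) ^ (w.gi + 1))]
  refine mul_le_mul_of_nonneg_left ?_ hc
  rw [th, Real.rpow_mul h0, ← Real.mul_rpow hq (Real.rpow_nonneg h0 _)]
  refine Real.rpow_le_rpow (norm_nonneg _) ?_ (inv_pos.2 w.tp_pos).le
  have e1 : p * e * p⁻¹ - 1 = p * (e - 1) * p⁻¹ := by rw [mul_sub, sub_mul, mul_one, h.mul_inv]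
  rw [e1, mul_assoc (M0 * M0), mul_assoc (Fintype.card ι : ℝ)]
  exact (tri _).trans (mul_le_mul_of_nonneg_left b4 (by positivity))

end Wt

namespace Pre

variable {X : Type} [MeasurableSpace X] {μ : Measure X} {ι : Type} [Fintype ι] [DecidableEq ι]
  {S : Pre X μ ι} {x y z : X} {J : Set ℝ} {s t : ℝ × ℝ}

section Flow

variable (S)

theorem f_neg_f (s : ℝ × ℝ) (x : X) : S.f (-s) (S.f s x) = x := by
  rw [← S.f_add, neg_add_cancel, S.f_zero]

theorem f_f_neg (s : ℝ × ℝ) (x : X) : S.f s (S.f (-s) x) = x := by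
  rw [← S.f_add, add_neg_cancel, S.f_zero]

theorem f_comm (s t : ℝ × ℝ) (x : X) : S.f s (S.f t x) = S.f t (S.f s x) := by
  rw [← S.f_add, ← S.f_add, add_comm]

theorem measurable_f (s : ℝ × ℝ) : Measurable (S.f s) := (S.mp s).measurable

/-- The flow as a measurable equivalence. -/
def fE (s : ℝ × ℝ) : X ≃ᵐ X where
  toFun := S.f s
  invFun := S.f (-s)
  left_inv := S.f_neg_f s
  right_inv := S.f_f_neg s
  measurable_toFun := S.measurable_f s
  measurable_invFun := S.measurable_f (-s)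

theorem fE_apply (s : ℝ × ℝ) (x : X) : S.fE s x = S.f s x := rfl

theorem fE_symm_apply (s : ℝ × ℝ) (x : X) : (S.fE s).symm x = S.f (-s) x := rfl

theorem a_zero (x : X) : S.a 0 x = x := by
  have : (((0 : ℤ) : ℝ), (0 : ℝ)) = 0 := by simp [Prod.ext_iff]
  rw [a, this, S.f_zero]

theorem a_add (i j : ℤ) (x : X) : S.a (i + j) x = S.a i (S.a j x) := by
  rw [a, a, a, ← S.f_add]
  simp

theorem a_neg_a (i : ℤ) (x : X) : S.a (-i) (S.a i x) = x := by
  rw [← a_add, neg_add_cancel, a_zero]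

theorem a_a_neg (i : ℤ) (x : X) : S.a i (S.a (-i) x) = x := by
  rw [← a_add, add_neg_cancel, a_zero]

theorem aE_apply (x : X) : S.aE x = S.a 1 x := by
  rw [a, Int.cast_one]
  rfl

theorem aE_symm_apply (x : X) : S.aE.symm x = S.a (-1) x := by
  rw [a, Int.cast_neg, Int.cast_one]
  rfl

theorem aE_iterate (k : ℕ) (x : X) : S.aE^[k] x = S.a k x := by
  induction k with
  | zero => simp [a_zero]
  | succ k ih => rw [Function.iterate_succ_apply', ih, aE_apply, ← a_add, add_comm]; simp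

theorem aE_symm_iterate (k : ℕ) (x : X) : S.aE.symm^[k] x = S.a (-k) x := by
  induction k with
  | zero => simp [a_zero]
  | succ k ih =>
    rw [Function.iterate_succ_apply', ih, aE_symm_apply, ← a_add]
    congr 1
    push_cast
    ring

theorem ergodic_aE : Ergodic S.aE μ := S.erg

theorem mp_a (i : ℤ) : MeasurePreserving (S.a i) μ μ := S.mp _

theorem measurable_a (i : ℤ) : Measurable (S.a i) := S.measurable_f _

theorem f_mem_iff (s : ℝ × ℝ) (x : X) : S.f s x ∈ S.X0 ↔ x ∈ S.X0 :=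
  ⟨fun h => by simpa [f_neg_f] using S.inv0 (-s) _ h, S.inv0 s x⟩

variable {S} in
theorem a_mem (hx : x ∈ S.X0) (i : ℤ) : S.a i x ∈ S.X0 := S.inv0 _ _ hx

end Flow

section Alg

theorem R_mem_left (h : S.R x y) : x ∈ S.X0 := S.R_mem x y h

theorem R_mem_right (h : S.R x y) : y ∈ S.X0 := S.R_mem y x (S.R_symm x y h)

theorem R_f_iff (s : ℝ × ℝ) : S.R (S.f s x) (S.f s y) ↔ S.R x y :=
  ⟨fun h => by simpa [f_neg_f] using S.R_f (-s) _ _ h, S.R_f s x y⟩

theorem R_a (h : S.R x y) (i : ℤ) : S.R (S.a i x) (S.a i y) := S.R_f _ _ _ h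

theorem T_mul_symm (h : S.R x y) : S.T x y * S.T y x = 1 := by
  rw [S.T_mul x y x h (S.R_symm x y h), S.T_self x (R_mem_left h)]

theorem isUnit_T (h : S.R x y) : IsUnit (S.T x y).det :=
  Matrix.isUnit_det_of_right_inverse (T_mul_symm h)

theorem T_inv (h : S.R x y) : (S.T x y)⁻¹ = S.T y x := Matrix.inv_eq_right_inv (T_mul_symm h)

theorem n_nil (h : S.R x y) : S.w.Nil univ (S.n x y) := (S.T_tri x y h).nil_nil (isUnit_T h)

variable (S) in
theorem l_lev (x y : X) : S.w.Lev (S.l x y) := Wt.lev_lev _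

theorem isUnit_l (h : S.R x y) : IsUnit (S.l x y).det := (S.T_tri x y h).isUnit_lev (isUnit_T h)

theorem n_mul_l (h : S.R x y) : S.n x y * S.l x y = S.T x y :=
  (S.T_tri x y h).nil_mul_lev (isUnit_T h)

theorem l_trans (h : S.R x y) (h' : S.R y z) : S.l x z = S.l x y * S.l y z := by
  rw [l, ← S.T_mul x y z h h', (S.T_tri x y h).lev_mul (S.T_tri y z h')]
  rfl

/-- The cocycle formula. -/
theorem n_trans (h : S.R x y) (h' : S.R y z) :
    S.n x z = S.n x y * (S.l x y * S.n y z * (S.l x y)⁻¹) := by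
  rw [n, ← S.T_mul x y z h h', (S.T_tri x y h).nil_mul (S.T_tri y z h') (isUnit_T h)]
  rfl

theorem n_self (hx : x ∈ S.X0) : S.n x x = 1 := by
  rw [n, S.T_self x hx, (Wt.Nil.one (J := univ)).nil_eq]

theorem l_self (hx : x ∈ S.X0) : S.l x x = 1 := by
  rw [l, S.T_self x hx, Wt.Lev.one.lev_eq]

theorem N_self (hx : x ∈ S.X0) : S.N x x = 0 := by rw [N, n_self hx, Wt.N_one]

variable (S) in
theorem N_nonneg (x y : X) : 0 ≤ S.N x y := S.w.N_nonneg _

theorem l_mul_symm (h : S.R x y) : S.l x y * S.l y x = 1 := by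
  rw [← l_trans h (S.R_symm x y h), l_self (R_mem_left h)]

theorem l_inv (h : S.R x y) : (S.l x y)⁻¹ = S.l y x := Matrix.inv_eq_right_inv (l_mul_symm h)

theorem n_trans' (h : S.R x y) (h' : S.R y z) :
    S.n x z = S.n x y * (S.l x y * S.n y z * S.l y x) := by
  rw [n_trans h h', l_inv h]

theorem n_symm (h : S.R x y) : S.n y x = S.l y x * (S.n x y)⁻¹ * S.l x y := by
  rw [n, ← T_inv h, (S.T_tri x y h).nil_inv (isUnit_T h), ← l_inv h]
  rfl

/-- The position of `z` seen from `y`, computed in the chart at `x`. -/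
theorem n_inv_mul (h : S.R x y) (h' : S.R y z) :
    (S.n x y)⁻¹ * S.n x z = S.l x y * S.n y z * S.l y x := by
  rw [n_trans' h h', ← mul_assoc, (n_nil h).inv_mul, one_mul]

theorem n_eq_conj (h : S.R x y) (h' : S.R y z) :
    S.n y z = S.l y x * ((S.n x y)⁻¹ * S.n x z) * S.l x y := by
  have e := l_mul_symm (S.R_symm x y h)
  rw [n_inv_mul h h', ← mul_assoc, ← mul_assoc, e, one_mul, mul_assoc, e, mul_one]

theorem eq_of_n_eq_one (h : S.R x y) (e : S.n x y = 1) : x = y :=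
  S.T_inj x y h ((S.T_tri x y h).lev_of_nil_eq_one (isUnit_T h) e)

theorem eq_of_N_eq_zero (h : S.R x y) (e : S.N x y = 0) : x = y :=
  eq_of_n_eq_one h ((n_nil h).eq_one_of_N e)

theorem eq_of_n_eq (h : S.R x y) (h' : S.R x z) (e : S.n x y = S.n x z) : y = z := by
  have h2 := S.R_trans y x z (S.R_symm x y h) h'
  refine eq_of_n_eq_one h2 ?_
  rw [n_eq_conj h h2, ← e, (n_nil h).inv_mul, mul_one, l_mul_symm (S.R_symm x y h)]

theorem L_mul_neg (hx : x ∈ S.X0) (s : ℝ × ℝ) : S.L (-s) (S.f s x) * S.L s x = 1 := by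
  rw [← S.L_add _ _ x hx, neg_add_cancel, S.L_zero x hx]

theorem isUnit_L (hx : x ∈ S.X0) (s : ℝ × ℝ) : IsUnit (S.L s x).det :=
  Matrix.isUnit_det_of_left_inverse (L_mul_neg hx s)

theorem L_inv (hx : x ∈ S.X0) (s : ℝ × ℝ) : (S.L s x)⁻¹ = S.L (-s) (S.f s x) :=
  Matrix.inv_eq_left_inv (L_mul_neg hx s)

theorem n_f (h : S.R x y) (s : ℝ × ℝ) :
    S.n (S.f s x) (S.f s y) = S.L s x * S.n x y * (S.L s x)⁻¹ := by
  rw [n, S.T_f s x y h, (S.T_tri x y h).nil_conj (S.L_lev s x (R_mem_left h))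
    (S.L_lev s y (R_mem_right h)).inv
    (Matrix.isUnit_nonsing_inv_det _ (isUnit_L (R_mem_right h) s))]
  rfl

theorem l_f (h : S.R x y) (s : ℝ × ℝ) :
    S.l (S.f s x) (S.f s y) = S.L s x * S.l x y * (S.L s y)⁻¹ := by
  rw [l, S.T_f s x y h, (S.T_tri x y h).lev_conj (S.L_lev s x (R_mem_left h))
    (S.L_lev s y (R_mem_right h)).inv]
  rfl

theorem n_a (h : S.R x y) (i : ℤ) :
    S.n (S.a i x) (S.a i y) = S.La i x * S.n x y * (S.La i x)⁻¹ := n_f h _

theorem l_a (h : S.R x y) (i : ℤ) :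
    S.l (S.a i x) (S.a i y) = S.La i x * S.l x y * (S.La i y)⁻¹ := l_f h _

theorem La_lev (hx : x ∈ S.X0) (i : ℤ) : S.w.Lev (S.La i x) := S.L_lev _ x hx

theorem isUnit_La (hx : x ∈ S.X0) (i : ℤ) : IsUnit (S.La i x).det := isUnit_L hx _

theorem RJ.refl (hx : x ∈ S.X0) : S.RJ J x x := ⟨S.R_refl x hx, by rw [n_self hx]; exact Wt.Nil.one⟩

theorem RJ.symm (hJ : J.OrdConnected) (h : S.RJ J x y) : S.RJ J y x := by
  refine ⟨S.R_symm x y h.1, ?_⟩
  rw [n_symm h.1]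
  exact (h.2.inv hJ).conj (S.l_lev _ _) (S.l_lev _ _) (l_mul_symm (S.R_symm x y h.1))

theorem RJ.trans (hJ : J.OrdConnected) (h : S.RJ J x y) (h' : S.RJ J y z) : S.RJ J x z := by
  refine ⟨S.R_trans x y z h.1 h'.1, ?_⟩
  rw [n_trans' h.1 h'.1]
  exact h.2.mul hJ (h'.2.conj (S.l_lev _ _) (S.l_lev _ _) (l_mul_symm h.1))

theorem RJ.mono {J' : Set ℝ} (h : S.RJ J x y) (hJ : J ⊆ J') : S.RJ J' x y := ⟨h.1, h.2.mono hJ⟩

theorem RJ.f (h : S.RJ J x y) (s : ℝ × ℝ) : S.RJ J (S.f s x) (S.f s y) := by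
  refine ⟨S.R_f s x y h.1, ?_⟩
  rw [n_f h.1]
  exact h.2.conj_inv (S.L_lev s x (R_mem_left h.1)) (isUnit_L (R_mem_left h.1) s)

theorem RJ.a (h : S.RJ J x y) (i : ℤ) : S.RJ J (S.a i x) (S.a i y) := h.f _

theorem RJ_f_iff (s : ℝ × ℝ) : S.RJ J (S.f s x) (S.f s y) ↔ S.RJ J x y :=
  ⟨fun h => by simpa [f_neg_f] using h.f (-s), fun h => h.f s⟩

theorem RJ_univ : S.RJ univ x y ↔ S.R x y := ⟨fun h => h.1, fun h => ⟨h, n_nil h⟩⟩

/-- Membership in a subrelation can be read in any chart. -/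
theorem RJ_iff_chart (h : S.R x y) (h' : S.R x z) :
    S.RJ J y z ↔ S.w.Nil J ((S.n x y)⁻¹ * S.n x z) := by
  have h2 := S.R_trans y x z (S.R_symm x y h) h'
  constructor
  · intro hr
    rw [n_inv_mul h h2]
    exact hr.2.conj (S.l_lev _ _) (S.l_lev _ _) (l_mul_symm h)
  · intro hr
    refine ⟨h2, ?_⟩
    rw [n_eq_conj h h2]
    exact hr.conj (S.l_lev _ _) (S.l_lev _ _) (l_mul_symm (S.R_symm x y h))

end Alg

section Meas

variable (S)

theorem measurable_n : Measurable fun p : X × X => S.n p.1 p.2 := S.w.measurable_nil.comp S.measT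

theorem measurable_l : Measurable fun p : X × X => S.l p.1 p.2 := S.w.measurable_lev.comp S.measT

theorem measurable_N : Measurable fun p : X × X => S.N p.1 p.2 :=
  S.w.measurable_N.comp S.measurable_n

theorem measurable_n_right (x : X) : Measurable (S.n x) :=
  S.measurable_n.comp measurable_prodMk_left

theorem measurable_N_right (x : X) : Measurable (S.N x) :=
  S.w.measurable_N.comp (S.measurable_n_right x)

theorem measurableSet_RJ (J : Set ℝ) : MeasurableSet {p : X × X | S.RJ J p.1 p.2} :=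
  S.measR.inter (S.measurable_n (S.w.measurableSet_Nil J))

variable {S} {α : Type*} [MeasurableSpace α] {u v : α → X}

theorem measurable_n_comp (hu : Measurable u) (hv : Measurable v) :
    Measurable fun a => S.n (u a) (v a) := S.measurable_n.comp (hu.prodMk hv)

theorem measurable_l_comp (hu : Measurable u) (hv : Measurable v) :
    Measurable fun a => S.l (u a) (v a) := S.measurable_l.comp (hu.prodMk hv)

theorem measurable_N_comp (hu : Measurable u) (hv : Measurable v) :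
    Measurable fun a => S.N (u a) (v a) := S.w.measurable_N.comp (measurable_n_comp hu hv)

theorem measurableSet_RJ_comp (J : Set ℝ) (hu : Measurable u) (hv : Measurable v) :
    MeasurableSet {a | S.RJ J (u a) (v a)} := (hu.prodMk hv) (S.measurableSet_RJ J)

end Meas

section Temp

variable {ε : ℝ} {q : X → ℝ}

theorem Temp.pos (hq : S.Temp ε q) (x : X) : 0 < q x := one_pos.trans_le (hq.one_le x)

theorem Temp.one_le_mul (hq : S.Temp ε q) (hε : 0 ≤ ε) (x : X) {r : ℝ} (hr : 0 ≤ r) :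
    1 ≤ q x * Real.exp (ε * r) :=
  one_le_mul_of_one_le_of_one_le (hq.one_le x) (Real.one_le_exp (mul_nonneg hε hr))

/-- Conjugation by the flow matrices, compared with the dilations. -/
theorem Temp.N_conj_le (hq : S.Temp ε q) (hε : 0 ≤ ε) (hx : x ∈ S.X0) {m : Matrix ι ι ℝ}
    (hm : S.w.Nil J m) (s : ℝ × ℝ) {c : ℝ} (hc : ∀ σ ∈ J, s.1 + s.2 * σ ≤ c) :
    S.w.N (S.L s x * m * (S.L s x)⁻¹) ≤
      S.w.C * (q x * Real.exp (ε * ‖s‖)) ^ S.w.C * (Real.exp c * S.w.N m) := by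
  obtain ⟨g1, g2⟩ := hq.grow x hx s
  have hl := S.L_lev s x hx
  have e : S.L s x * m * (S.L s x)⁻¹ = S.L s x * S.w.dil (-s.1) (-s.2) *
      (S.w.dil s.1 s.2 * m * S.w.dil (-s.1) (-s.2)) * (S.w.dil s.1 s.2 * (S.L s x)⁻¹) := by
    simp only [mul_assoc]
    rw [← mul_assoc (S.w.dil (-s.1) (-s.2)) (S.w.dil s.1 s.2) (S.L s x)⁻¹, S.w.dil_neg_mul, one_mul,
      ← mul_assoc (S.w.dil (-s.1) (-s.2)), S.w.dil_neg_mul, one_mul]
  have hB := hq.one_le_mul hε x (norm_nonneg s)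
  rw [e]
  refine ((hm.dil_conj s.1 s.2).N_conj_le (hl.mul (S.w.dil_lev _ _)) ((S.w.dil_lev _ _).mul hl.inv)
    hB g1 g2).trans ?_
  exact mul_le_mul_of_nonneg_left (hm.N_dil_le hc)
    (mul_nonneg S.w.C_pos.le (Real.rpow_nonneg (by linarith) _))

theorem Temp.N_f_le (hq : S.Temp ε q) (hε : 0 ≤ ε) (h : S.RJ J x y) (s : ℝ × ℝ) {c : ℝ}
    (hc : ∀ σ ∈ J, s.1 + s.2 * σ ≤ c) : S.N (S.f s x) (S.f s y) ≤
      S.w.C * (q x * Real.exp (ε * ‖s‖)) ^ S.w.C * (Real.exp c * S.N x y) := by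
  rw [N, n_f h.1]
  exact hq.N_conj_le hε (R_mem_left h.1) h.2 s hc

theorem norm_int_prod (i : ℤ) : ‖(((i : ℝ), (0 : ℝ)) : ℝ × ℝ)‖ = |(i : ℝ)| := by
  simp [Prod.norm_def]

theorem Temp.N_conj_La_le (hq : S.Temp ε q) (hε : 0 ≤ ε) (hx : x ∈ S.X0) {m : Matrix ι ι ℝ}
    (hm : S.w.Nil J m) (i : ℤ) : S.w.N (S.La i x * m * (S.La i x)⁻¹) ≤
      S.w.C * q x ^ S.w.C * Real.exp (i + S.w.C * ε * |(i : ℝ)|) * S.w.N m := by
  have := hq.N_conj_le hε hx hm ((i : ℝ), 0) (c := i) (by simp)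
  rw [norm_int_prod, Real.mul_rpow (hq.pos x).le (Real.exp_pos _).le, ← Real.exp_mul] at this
  refine this.trans (le_of_eq ?_)
  rw [Real.exp_add, show ε * |(i : ℝ)| * S.w.C = S.w.C * ε * |(i : ℝ)| by ring]
  ring

theorem Temp.N_a_le (hq : S.Temp ε q) (hε : 0 ≤ ε) (h : S.R x y) (i : ℤ) :
    S.N (S.a i x) (S.a i y) ≤
      S.w.C * q x ^ S.w.C * Real.exp (i + S.w.C * ε * |(i : ℝ)|) * S.N x y := by
  rw [N, n_a h]
  exact hq.N_conj_La_le hε (R_mem_left h) (n_nil h) i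

/-- Contraction in the past. -/
theorem Temp.N_conj_back_le (hq : S.Temp ε q) (hε : 0 ≤ ε) (hε' : S.w.C * ε ≤ 1 / 2)
    (hx : x ∈ S.X0) {m : Matrix ι ι ℝ} (hm : S.w.Nil J m) (k : ℕ) :
    S.w.N (S.La (-k) x * m * (S.La (-k) x)⁻¹) ≤
      S.w.C * q x ^ S.w.C * Real.exp (-(k / 2)) * S.w.N m := by
  refine (hq.N_conj_La_le hε hx hm _).trans (mul_le_mul_of_nonneg_right
    (mul_le_mul_of_nonneg_left (Real.exp_le_exp.2 ?_)
      (mul_nonneg S.w.C_pos.le (Real.rpow_nonneg (hq.pos x).le _))) (S.w.N_nonneg m))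
  have hk : (0 : ℝ) ≤ k := Nat.cast_nonneg k
  rw [Int.cast_neg, Int.cast_natCast, abs_neg, abs_of_nonneg hk]
  nlinarith

theorem Temp.N_back_le (hq : S.Temp ε q) (hε : 0 ≤ ε) (hε' : S.w.C * ε ≤ 1 / 2) (h : S.R x y)
    (k : ℕ) : S.N (S.a (-k) x) (S.a (-k) y) ≤
      S.w.C * q x ^ S.w.C * Real.exp (-(k / 2)) * S.N x y := by
  rw [N, n_a h]
  exact hq.N_conj_back_le hε hε' (R_mem_left h) (n_nil h) k

theorem Bd.norm_l_le (hb : S.Bd q) (h : S.R x y) (h1 : S.N x y ≤ 1) :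
    ‖S.l x y‖ ≤ q x * q y ∧ ‖S.l y x‖ ≤ q x * q y :=
  ⟨(S.w.norm_lev_le _).trans (hb x y h h1).1, (S.w.norm_lev_le _).trans (hb x y h h1).2⟩

/-- The block diagonal parts in terms of those of the images under the flow. -/
theorem Temp.norm_l_le_flow (hq : S.Temp ε q) (h : S.R x y) (s : ℝ × ℝ) :
    ‖S.l (S.f s x) (S.f s y)‖ ≤
      q x * Real.exp (ε * ‖s‖) * ‖S.l x y‖ * (q y * Real.exp (ε * ‖s‖)) := by
  have g1 := (hq.grow x (R_mem_left h) s).1
  have g2 := (hq.grow y (R_mem_right h) s).2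
  have e : S.l (S.f s x) (S.f s y) =
      S.L s x * S.w.dil (-s.1) (-s.2) * S.l x y * (S.w.dil s.1 s.2 * (S.L s y)⁻¹) := by
    rw [l_f h, mul_assoc (S.L s x) (S.w.dil _ _), (S.l_lev x y).dil_comm]
    simp only [mul_assoc]
    rw [← mul_assoc (S.w.dil (-s.1) (-s.2)), S.w.dil_neg_mul, one_mul]
  rw [e]
  have p1 : 0 ≤ q x * Real.exp (ε * ‖s‖) := (norm_nonneg _).trans g1
  exact (norm_mul_le _ _).trans (mul_le_mul ((norm_mul_le _ _).trans
    (mul_le_mul_of_nonneg_right g1 (norm_nonneg _))) g2 (norm_nonneg _)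
    (mul_nonneg p1 (norm_nonneg _)))

/-- If the points are close `k` steps in the past, the block diagonal parts are bounded. -/
theorem Temp.norm_l_le_of_back (hq : S.Temp ε q) (hb : S.Bd q) (h : S.R x y) (k : ℕ)
    (h1 : S.N (S.a (-k) x) (S.a (-k) y) ≤ 1) :
    ‖S.l x y‖ ≤ (q x * q y) ^ 2 * Real.exp (6 * ε * k) ∧
      ‖S.l y x‖ ≤ (q x * q y) ^ 2 * Real.exp (6 * ε * k) := by
  have hk : |(((-k : ℤ)) : ℝ)| = k := by simp
  have hx := hq.slow x (R_mem_left h) (-k)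
  have hy := hq.slow y (R_mem_right h) (-k)
  rw [hk] at hx hy
  have hR := R_a h (-k)
  obtain ⟨b1, b2⟩ := hb.norm_l_le hR h1
  have c1 := hq.norm_l_le_flow hR (((k : ℤ) : ℝ), 0)
  have c2 := hq.norm_l_le_flow (S.R_symm _ _ hR) (((k : ℤ) : ℝ), 0)
  rw [norm_int_prod] at c1 c2
  change ‖S.l (S.a k _) (S.a k _)‖ ≤ _ at c1 c2
  rw [a_a_neg, a_a_neg, Int.cast_natCast, Nat.abs_cast] at c1 c2
  set E := Real.exp (ε * k) with hE
  have E0 : 0 < E := Real.exp_pos _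
  have e6 : Real.exp (6 * ε * k) = E ^ 6 := by
    rw [hE, ← Real.exp_nat_mul]
    congr 1
    push_cast
    ring
  have px := hq.pos (S.a (-k) x)
  have py := hq.pos (S.a (-k) y)
  have hxy : q (S.a (-k) x) * q (S.a (-k) y) ≤ q x * E * (q y * E) :=
    mul_le_mul hx hy py.le (px.le.trans hx)
  have fin : (q (S.a (-k) x) * q (S.a (-k) y)) ^ 2 * E ^ 2 ≤ (q x * q y) ^ 2 * E ^ 6 :=
    (mul_le_mul_of_nonneg_right (pow_le_pow_left₀ (by positivity) hxy 2) (by positivity)).trans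
      (le_of_eq (by ring))
  rw [e6]
  constructor
  · refine c1.trans (le_trans ?_ fin)
    refine (mul_le_mul_of_nonneg_right (mul_le_mul_of_nonneg_left b1 (by positivity))
      (by positivity)).trans (le_of_eq (by ring))
  · refine c2.trans (le_trans ?_ fin)
    refine (mul_le_mul_of_nonneg_right (mul_le_mul_of_nonneg_left b2 (by positivity))
      (by positivity)).trans (le_of_eq (by ring))

/-- LB: the block diagonal parts grow like a small power of the gauge. -/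
theorem Temp.norm_l_le (hq : S.Temp ε q) (hb : S.Bd q) (hε : 0 ≤ ε) (hε' : S.w.C * ε ≤ 1 / 2)
    (h : S.R x y) :
    ‖S.l x y‖ ≤ (q x * q y) ^ 2 *
        (Real.exp (6 * ε) * (S.w.C * q x ^ S.w.C * (1 + S.N x y)) ^ (12 * ε)) ∧
      ‖S.l y x‖ ≤ (q x * q y) ^ 2 *
        (Real.exp (6 * ε) * (S.w.C * q x ^ S.w.C * (1 + S.N x y)) ^ (12 * ε)) := by
  have hN := S.N_nonneg x y
  have hA : 1 ≤ S.w.C * q x ^ S.w.C :=
    one_le_mul_of_one_le_of_one_le S.w.one_le_C (Real.one_le_rpow (hq.one_le x) S.w.C_pos.le)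
  obtain ⟨A, hAe⟩ : ∃ A, A = S.w.C * q x ^ S.w.C * (1 + S.N x y) := ⟨_, rfl⟩
  have hA1 : 1 ≤ A := hAe ▸ one_le_mul_of_one_le_of_one_le hA (by linarith)
  have hlog := Real.log_nonneg hA1
  obtain ⟨k, hk1, hk2⟩ : ∃ k : ℕ, 2 * Real.log A ≤ k ∧ (k : ℝ) ≤ 2 * Real.log A + 1 :=
    ⟨⌈2 * Real.log A⌉₊, Nat.le_ceil _, (Nat.ceil_lt_add_one (by linarith)).le⟩
  have h1 : S.N (S.a (-k) x) (S.a (-k) y) ≤ 1 := by
    refine (hq.N_back_le hε hε' h k).trans ?_
    have e1 : Real.exp (-(k / 2)) ≤ A⁻¹ := by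
      rw [← Real.exp_log (by linarith : 0 < A), ← Real.exp_neg]
      exact Real.exp_le_exp.2 (by linarith)
    have e2 : S.w.C * q x ^ S.w.C * S.N x y ≤ A := by rw [hAe]; nlinarith
    calc _ = S.w.C * q x ^ S.w.C * S.N x y * Real.exp (-(k / 2)) := by ring
      _ ≤ A * A⁻¹ := mul_le_mul e2 e1 (Real.exp_pos _).le (by linarith)
      _ = 1 := mul_inv_cancel₀ (by linarith)
  have h2 : Real.exp (6 * ε * k) ≤ Real.exp (6 * ε) * A ^ (12 * ε) := by
    rw [Real.rpow_def_of_pos (by linarith), ← Real.exp_add]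
    exact Real.exp_le_exp.2 (by nlinarith)
  obtain ⟨b1, b2⟩ := hq.norm_l_le_of_back hb h k h1
  rw [← hAe]
  exact ⟨b1.trans (mul_le_mul_of_nonneg_left h2 (sq_nonneg _)),
    b2.trans (mul_le_mul_of_nonneg_left h2 (sq_nonneg _))⟩

/-- LB, qualitative form: on bounded sets the block diagonal parts are bounded. -/
theorem Temp.exists_norm_l_le (hq : S.Temp ε q) (hb : S.Bd q) (hε : 0 ≤ ε)
    (hε' : S.w.C * ε ≤ 1 / 2) (q0 r : ℝ) : ∃ B, 1 ≤ B ∧ ∀ x y, S.R x y → q x ≤ q0 → q y ≤ q0 →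
      S.N x y ≤ r → ‖S.l x y‖ ≤ B ∧ ‖S.l y x‖ ≤ B := by
  refine ⟨max 1 ((q0 * q0) ^ 2 * (Real.exp (6 * ε) * (S.w.C * q0 ^ S.w.C * (1 + r)) ^ (12 * ε))),
    le_max_left _ _, fun x y h hx hy hr => ?_⟩
  obtain ⟨b1, b2⟩ := hq.norm_l_le hb hε hε' h
  have px := hq.pos x
  have py := hq.pos y
  have hN := S.N_nonneg x y
  have hC := S.w.C_pos
  have : (q x * q y) ^ 2 * (Real.exp (6 * ε) * (S.w.C * q x ^ S.w.C * (1 + S.N x y)) ^ (12 * ε)) ≤
      (q0 * q0) ^ 2 * (Real.exp (6 * ε) * (S.w.C * q0 ^ S.w.C * (1 + r)) ^ (12 * ε)) := by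
    have p0 : 0 < q0 := px.trans_le hx
    gcongr
  exact ⟨b1.trans (this.trans (le_max_right _ _)), b2.trans (this.trans (le_max_right _ _))⟩

end Temp

end Pre

end Pool.Agent.P.MP_d483fb_an.Z
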